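import Pool.Agent.U68.TU.Stm

set_option autoImplicit false

/-!
# Project TU, package T1: the totally positive integers of `ℚ(√2, √5)` with `λ = 1`
-/

namespace Pool.Agent.U364.TU

open NumberField Quaternion Pool.Agent.U68.TU

/-- the finite check -/
lemma t1_box : ∀ a ∈ Finset.Icc (1 : ℤ) 3, ∀ b ∈ Finset.Icc (-1 : ℤ) 4, ∀ d ∈ Finset.Icc (-3 : ℤ) 3,
    0 < 2 * (a ^ 2 + b ^ 2 - 2 * (a - 1) ^ 2 - 2 * d ^ 2) +
        (2 * a * b + b ^ 2 - 4 * (a - 1) * d - 2 * d ^ 2) →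
    5 * (2 * a * b + b ^ 2 - 4 * (a - 1) * d - 2 * d ^ 2) ^ 2 <
      (2 * (a ^ 2 + b ^ 2 - 2 * (a - 1) ^ 2 - 2 * d ^ 2) +
        (2 * a * b + b ^ 2 - 4 * (a - 1) * d - 2 * d ^ 2)) ^ 2 →
    0 < 2 * a + b → 5 * b ^ 2 < (2 * a + b) ^ 2 →
    (a = 1 ∧ b = 0 ∧ d = 0) ∨ (a = 3 ∧ b = 0 ∧ d = 0) ∨ (a = 1 ∧ b = 1 ∧ d = 0) ∨
      (a = 3 ∧ b = 3 ∧ d = 2) ∨ (a = 2 ∧ b = 0 ∧ d = 0) ∨ (a = 2 ∧ b = 2 ∧ d = 1) := by
  decide

lemma t1_int (a b c d : ℤ) (hac : a - c = 1)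
    (h : ∀ s g : ℝ, s ^ 2 = 2 → g ^ 2 = 5 →
      0 < (a : ℝ) + b * ((1 + g) / 2) + c * s + d * (s * ((1 + g) / 2))) :
    (a = 1 ∧ b = 0 ∧ d = 0) ∨ (a = 3 ∧ b = 0 ∧ d = 0) ∨ (a = 1 ∧ b = 1 ∧ d = 0) ∨
      (a = 3 ∧ b = 3 ∧ d = 2) ∨ (a = 2 ∧ b = 0 ∧ d = 0) ∨ (a = 2 ∧ b = 2 ∧ d = 1) := by
  obtain ⟨s, hs0, hs⟩ : ∃ s : ℝ, 0 < s ∧ s ^ 2 = 2 :=
    ⟨Real.sqrt 2, by positivity, Real.sq_sqrt (by norm_num)⟩
  obtain ⟨g, hg0, hg⟩ : ∃ g : ℝ, 0 < g ∧ g ^ 2 = 5 :=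
    ⟨Real.sqrt 5, by positivity, Real.sq_sqrt (by norm_num)⟩
  have hs1 : 1.414 < s := by nlinarith
  have hs2 : s < 1.415 := by nlinarith
  have hg1 : 2.236 < g := by nlinarith
  have hg2 : g < 2.237 := by nlinarith
  have e1 := h s g hs hg
  have e2 := h s (-g) hs (by rw [neg_sq]; exact hg)
  have e3 := h (-s) g (by rw [neg_sq]; exact hs) hg
  have e4 := h (-s) (-g) (by rw [neg_sq]; exact hs) (by rw [neg_sq]; exact hg)
  obtain rfl : c = a - 1 := by omega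
  push_cast at e1 e2 e3 e4
  -- the parts `u`, `v`
  set A : ℝ := (a : ℝ) with hA
  set Bb : ℝ := (b : ℝ) with hB
  set D : ℝ := (d : ℝ) with hD
  set u₁ : ℝ := A + Bb * ((1 + g) / 2) with hu₁
  set u₂ : ℝ := A + Bb * ((1 + -g) / 2) with hu₂
  set v₁ : ℝ := (A - 1) + D * ((1 + g) / 2) with hv₁
  set v₂ : ℝ := (A - 1) + D * ((1 + -g) / 2) with hv₂
  have f1 : 0 < u₁ + s * v₁ := by rw [hu₁, hv₁]; linarith
  have f2 : 0 < u₂ + s * v₂ := by rw [hu₂, hv₂]; linarith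
  have f3 : 0 < u₁ - s * v₁ := by rw [hu₁, hv₁]; linarith
  have f4 : 0 < u₂ - s * v₂ := by rw [hu₂, hv₂]; linarith
  have k1 : 0 < u₁ := by linarith
  have k2 : 0 < u₂ := by linarith
  -- `A`
  have hAm : 0 < (g - 1) * (u₁ - s * v₁) + (g + 1) * (u₂ - s * v₂) := by
    have := mul_pos (show (0:ℝ) < g - 1 by linarith) f3
    have := mul_pos (show (0:ℝ) < g + 1 by linarith) f4
    linarith
  have hAp : 0 < (g - 1) * (u₁ + s * v₁) + (g + 1) * (u₂ + s * v₂) := by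
    have := mul_pos (show (0:ℝ) < g - 1 by linarith) f1
    have := mul_pos (show (0:ℝ) < g + 1 by linarith) f2
    linarith
  have i1 : (g - 1) * u₁ + (g + 1) * u₂ = 2 * g * A + (5 - g ^ 2) * 0 := by
    rw [hu₁, hu₂]; ring
  have i2 : (g - 1) * v₁ + (g + 1) * v₂ = 2 * g * (A - 1) := by
    rw [hv₁, hv₂]; ring
  have hAm' : 0 < 2 * g * (A - s * (A - 1)) := by
    have : (g - 1) * (u₁ - s * v₁) + (g + 1) * (u₂ - s * v₂) =
      ((g - 1) * u₁ + (g + 1) * u₂) - s * ((g - 1) * v₁ + (g + 1) * v₂) := by ring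
    rw [this, i1, i2] at hAm
    linarith
  have hAp' : 0 < 2 * g * (A + s * (A - 1)) := by
    have : (g - 1) * (u₁ + s * v₁) + (g + 1) * (u₂ + s * v₂) =
      ((g - 1) * u₁ + (g + 1) * u₂) + s * ((g - 1) * v₁ + (g + 1) * v₂) := by ring
    rw [this, i1, i2] at hAp
    linarith
  have j1 : 0 < A - s * (A - 1) := by
    by_contra hn
    have := mul_nonneg (show (0:ℝ) ≤ 2 * g by positivity) (show 0 ≤ -(A - s * (A - 1)) by linarith)
    linarith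
  have j2 : 0 < A + s * (A - 1) := by
    by_contra hn
    have := mul_nonneg (show (0:ℝ) ≤ 2 * g by positivity) (show 0 ≤ -(A + s * (A - 1)) by linarith)
    linarith
  have ha3 : a ≤ 3 := by
    by_contra hn
    have h4 : (4 : ℝ) ≤ A := by rw [hA]; exact_mod_cast (by omega : (4:ℤ) ≤ a)
    nlinarith
  have ha1 : 1 ≤ a := by
    by_contra hn
    have h4 : A ≤ 0 := by rw [hA]; exact_mod_cast (by omega : a ≤ (0:ℤ))
    nlinarith
  have hA3 : A ≤ 3 := by rw [hA]; exact_mod_cast ha3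
  have hA1 : 1 ≤ A := by rw [hA]; exact_mod_cast ha1
  -- `b`
  have hb1 : -1 ≤ b := by
    by_contra hn
    have h4 : Bb ≤ -2 := by rw [hB]; exact_mod_cast (by omega : b ≤ (-2:ℤ))
    rw [hu₁] at k1
    nlinarith
  have hb2 : b ≤ 4 := by
    by_contra hn
    have h4 : 5 ≤ Bb := by rw [hB]; exact_mod_cast (by omega : (5:ℤ) ≤ b)
    rw [hu₂] at k2
    nlinarith
  have hB2 : Bb ≤ 4 := by rw [hB]; exact_mod_cast hb2
  -- `d`
  have hd : s * (g * D) < 2 * A + Bb := by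
    have e : s * (g * D) = s * v₁ - s * v₂ := by rw [hv₁, hv₂]; ring
    have e' : 2 * A + Bb = u₁ + u₂ := by rw [hu₁, hu₂]; ring
    rw [e, e']; linarith
  have hd' : -(s * (g * D)) < 2 * A + Bb := by
    have e : s * (g * D) = s * v₁ - s * v₂ := by rw [hv₁, hv₂]; ring
    have e' : 2 * A + Bb = u₁ + u₂ := by rw [hu₁, hu₂]; ring
    rw [e, e']; linarith
  have hsg : 3 < s * g := by nlinarith
  have hd3 : d ≤ 3 := by
    by_contra hn
    have h4 : 4 ≤ D := by rw [hD]; exact_mod_cast (by omega : (4:ℤ) ≤ d)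
    have : s * (g * D) = (s * g) * D := by ring
    rw [this] at hd
    nlinarith
  have hd4 : -3 ≤ d := by
    by_contra hn
    have h4 : D ≤ -4 := by rw [hD]; exact_mod_cast (by omega : d ≤ (-4:ℤ))
    have : s * (g * D) = (s * g) * D := by ring
    rw [this] at hd'
    nlinarith
  -- the integral inequalities
  have q1 : 0 < u₁ ^ 2 - 2 * v₁ ^ 2 := by
    have := mul_pos f1 f3
    have e : (u₁ + s * v₁) * (u₁ - s * v₁) = u₁ ^ 2 - s ^ 2 * v₁ ^ 2 := by ring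
    rw [e, hs] at this
    exact this
  have q2 : 0 < u₂ ^ 2 - 2 * v₂ ^ 2 := by
    have := mul_pos f2 f4
    have e : (u₂ + s * v₂) * (u₂ - s * v₂) = u₂ ^ 2 - s ^ 2 * v₂ ^ 2 := by ring
    rw [e, hs] at this
    exact this
  set P : ℤ := a ^ 2 + b ^ 2 - 2 * (a - 1) ^ 2 - 2 * d ^ 2 with hP
  set Q : ℤ := 2 * a * b + b ^ 2 - 4 * (a - 1) * d - 2 * d ^ 2 with hQ
  have r1 : 2 * (u₁ ^ 2 - 2 * v₁ ^ 2) = ((2 * P + Q : ℤ) : ℝ) + (Q : ℝ) * g := by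
    rw [hP, hQ, hu₁, hv₁]
    push_cast
    linear_combination (Bb ^ 2 / 2 - D ^ 2) * hg
  have r2 : 2 * (u₂ ^ 2 - 2 * v₂ ^ 2) = ((2 * P + Q : ℤ) : ℝ) - (Q : ℝ) * g := by
    rw [hP, hQ, hu₂, hv₂]
    push_cast
    linear_combination (Bb ^ 2 / 2 - D ^ 2) * hg
  have w1 : 0 < ((2 * P + Q : ℤ) : ℝ) + (Q : ℝ) * g := by rw [← r1]; linarith
  have w2 : 0 < ((2 * P + Q : ℤ) : ℝ) - (Q : ℝ) * g := by rw [← r2]; linarith
  have z1 : 0 < 2 * P + Q := by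
    have : (0:ℝ) < ((2 * P + Q : ℤ) : ℝ) := by linarith
    exact_mod_cast this
  have z2 : 5 * Q ^ 2 < (2 * P + Q) ^ 2 := by
    have := mul_pos w1 w2
    have e : (((2 * P + Q : ℤ) : ℝ) + (Q : ℝ) * g) * (((2 * P + Q : ℤ) : ℝ) - (Q : ℝ) * g) =
      ((2 * P + Q : ℤ) : ℝ) ^ 2 - (Q : ℝ) ^ 2 * g ^ 2 := by ring
    rw [e, hg] at this
    have h' : (5:ℝ) * (Q : ℝ) ^ 2 < ((2 * P + Q : ℤ) : ℝ) ^ 2 := by linarith
    exact_mod_cast h'
  have z3 : 0 < 2 * a + b := by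
    have e' : 2 * A + Bb = u₁ + u₂ := by rw [hu₁, hu₂]; ring
    have : (0:ℝ) < 2 * A + Bb := by rw [e']; linarith
    rw [hA, hB] at this
    exact_mod_cast this
  have z4 : 5 * b ^ 2 < (2 * a + b) ^ 2 := by
    have := mul_pos k1 k2
    have e : u₁ * u₂ = ((2 * A + Bb) ^ 2 - Bb ^ 2 * g ^ 2) / 4 := by rw [hu₁, hu₂]; ring
    rw [e, hg] at this
    have h' : (5:ℝ) * Bb ^ 2 < (2 * A + Bb) ^ 2 := by linarith
    rw [hA, hB] at h'
    exact_mod_cast h'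
  exact t1_box a (Finset.mem_Icc.mpr ⟨ha1, ha3⟩) b (Finset.mem_Icc.mpr ⟨hb1, hb2⟩) d
    (Finset.mem_Icc.mpr ⟨hd4, hd3⟩) z1 z2 z3 z4

theorem t_T1 : S_T1 := by
  intro K _ _ B x hx hl
  have hxv : x = (B.co x 0 : 𝓞 K) + (B.co x 1 : 𝓞 K) * B.f + (B.co x 2 : 𝓞 K) * B.s +
      (B.co x 3 : 𝓞 K) * (B.s * B.f) := by
    have := B.hco (B.co x)
    rwa [AddEquiv.symm_apply_apply] at this
  unfold BQ.lam at hl
  generalize B.co x 0 = a at *
  generalize B.co x 1 = b at *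
  generalize B.co x 2 = c at *
  generalize B.co x 3 = d at *
  have h := t1_int a b c d hl (by
    intro s g hs hg
    obtain ⟨φ, h1, h2⟩ := B.emb s ((1 + g) / 2) hs (by linear_combination hg / 4)
    have h3 := hx φ
    rw [hxv] at h3
    simp only [map_add, map_mul, map_intCast, h1, h2] at h3
    exact h3)
  have hf := B.hf
  have hs := B.hs
  obtain rfl : c = a - 1 := by omega
  rcases h with ⟨rfl, rfl, rfl⟩ | ⟨rfl, rfl, rfl⟩ | ⟨rfl, rfl, rfl⟩ | ⟨rfl, rfl, rfl⟩ |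
    ⟨rfl, rfl, rfl⟩ | ⟨rfl, rfl, rfl⟩
  · left
    rw [hxv]; push_cast; ring
  · right; left
    rw [hxv]; push_cast
    linear_combination (-1 : 𝓞 K) * hs
  · right; right; left
    rw [hxv]; push_cast
    linear_combination (-1 : 𝓞 K) * hf
  · right; right; right; left
    rw [hxv]; push_cast
    linear_combination (-(1 + B.s) ^ 2) * hf - (B.f + 1) * hs
  · right; right; right; right; left
    rw [hxv]; push_cast
    ring
  · right; right; right; right; right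
    rw [hxv]; push_cast
    linear_combination (-(2 + B.s)) * hf

end Pool.Agent.U364.TU
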